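import Pool.Agent.H24.Leg5

set_option autoImplicit false

open Polynomial

namespace Pool.Agent.Results.MP_f45d88_nt.Full

theorem result :
    ∀ (p : ℕ) [Fact (Nat.Prime p)], 7 ≤ p → p % 4 = 3 →
      Matrix.det (Matrix.of (fun j k : Fin ((p - 5) / 2) =>
        (X : ℤ[X]) + C (legendreSym p (((j : ℕ) : ℤ) - ((k : ℕ) : ℤ)))))
        = C (⌊((p : ℚ) - 2) / 3⌋ ^ 2) * X := by
  intro p hp h7 h3
  obtain ⟨m, rfl, hm⟩ : ∃ m, p = 2 * (m + 2) + 1 ∧ Odd m :=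
    ⟨(p - 5) / 2, by omega, ⟨(p - 7) / 4, by omega⟩⟩
  have e : (2 * (m + 2) + 1 - 5) / 2 = m := by omega
  have e2 : Matrix.det (Matrix.of (fun j k : Fin ((2 * (m + 2) + 1 - 5) / 2) =>
      (X : ℤ[X]) + C (legendreSym (2 * (m + 2) + 1) (((j : ℕ) : ℤ) - ((k : ℕ) : ℤ)))))
      = Matrix.det (Matrix.of (fun j k : Fin m =>
        (X : ℤ[X]) + C (Pool.Agent.H24.Leg.Tm (m + 2) m j k))) := by
    rw [← Matrix.det_submatrix_equiv_self (finCongr e)]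
    rfl
  have e3 : ⌊(((2 * (m + 2) + 1 : ℕ) : ℚ) - 2) / 3⌋ = (((2 * (m + 2) + 1 - 2) / 3 : ℕ) : ℤ) := by
    have : (((2 * (m + 2) + 1 : ℕ) : ℚ) - 2) / 3 = (((2 * m + 3 : ℕ) : ℤ) : ℚ) / ((3 : ℕ) : ℚ) := by
      push_cast; ring
    rw [this, Rat.floor_intCast_div_natCast]
    omega
  rw [e2, e3]
  apply Polynomial.funext
  intro t
  rw [eval_mul, eval_C, eval_X, ← Pool.Agent.H24.Leg.det_third hm t, ← coe_evalRingHom,
    RingHom.map_det]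
  congr 1
  ext j l
  simp [Matrix.vecMulVec_apply, add_comm]

end Pool.Agent.Results.MP_f45d88_nt.Full
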